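import Pool.Agent.Helper235.Params

namespace Pool.Agent.Results.MP_071fc1_co.SuperPoly

/-- `N` is `ε`-good: for every `δ ∈ (0,1]` and every `A ⊆ {1,…,N}` with `|A| ≥ δ N` there is an
integer `y ≠ 0` such that at least `(δ² - ε) N` integers `x` satisfy `x ∈ A` and `x + y² ∈ A`. -/
def IsGood (ε : ℝ) (N : ℕ) : Prop :=
  ∀ δ : ℝ, 0 < δ → δ ≤ 1 → ∀ A : Finset ℤ, A ⊆ Finset.Icc 1 (N : ℤ) → δ * N ≤ (A.card : ℝ) →
    ∃ y : ℤ, y ≠ 0 ∧ (δ ^ 2 - ε) * N ≤ ((A.filter (fun x => x + y ^ 2 ∈ A)).card : ℝ)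

/-- The popular Furstenberg–Sárközy threshold `N₀(ε)` (the least `n₀` such that every `N ≥ n₀` is
`ε`-good) grows faster than every polynomial in `1/ε`: for every `C > 0` and all sufficiently small
`ε > 0` some `N > ε^(-C)` is not `ε`-good, and hence `N₀(ε) > ε^(-C)`. -/
theorem result : ∀ C : ℝ, 0 < C → ∃ ε₀ : ℝ, 0 < ε₀ ∧ ∀ ε : ℝ, 0 < ε → ε < ε₀ →
    (∃ N : ℕ, ε ^ (-C) < N ∧ ¬ IsGood ε N) ∧
      ∀ n₀ : ℕ, IsLeast {n : ℕ | ∀ N : ℕ, n ≤ N → IsGood ε N} n₀ → ε ^ (-C) < n₀ := by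
  intro C _
  have hO := (isLittleO_rpow_exp_atTop (200 * C)).bound (show (0 : ℝ) < 1 / 2 by norm_num)
  obtain ⟨T, hT⟩ := Filter.eventually_atTop.mp hO
  set S : ℝ := max T 1000 with hS
  have hS1000 : 1000 ≤ S := le_max_right _ _
  refine ⟨(S ^ 200)⁻¹, by positivity, ?_⟩
  intro ε hε0 hε
  set t : ℝ := ε ^ (-(1 / 200 : ℝ)) with ht
  have ht0 : 0 < t := Real.rpow_pos_of_pos hε0 _
  have ht200 : t ^ (200 : ℕ) = ε⁻¹ := by
    rw [ht, ← Real.rpow_natCast, ← Real.rpow_mul hε0.le, ← Real.rpow_neg_one]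
    norm_num
  have hSt : S < t := by
    have h1 : S ^ 200 < t ^ 200 := by
      rw [ht200]
      have := inv_strictAnti₀ hε0 hε
      rwa [inv_inv] at this
    exact lt_of_pow_lt_pow_left₀ 200 ht0.le h1
  have ht1000 : 1000 ≤ t := by linarith
  have hTt : T ≤ t := (le_max_left T 1000).trans hSt.le
  have hpow : ε ^ (-C) = t ^ (200 * C) := by
    rw [ht, ← Real.rpow_mul hε0.le]
    congr 1
    ring
  have ht2 : t ^ 2 = ε ^ (-(1 / 100 : ℝ)) := by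
    rw [ht, ← Real.rpow_natCast, ← Real.rpow_mul hε0.le]
    norm_num
  have hlt : ε ^ (-C) < Real.exp (ε ^ (-(1 / 100 : ℝ))) := by
    rw [hpow, ← ht2]
    have h1 := hT t hTt
    rw [Real.norm_of_nonneg (Real.rpow_nonneg ht0.le _), Real.norm_of_nonneg (Real.exp_pos t).le]
      at h1
    have h2 : Real.exp t ≤ Real.exp (t ^ 2) := Real.exp_le_exp.mpr (by nlinarith)
    have h3 := Real.exp_pos t
    linarith
  obtain ⟨N, hN, hbad⟩ := Pool.Agent.Helper235.Chars.bad_exists ε hε0 ht1000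
  have hbad' : ¬ IsGood ε N := hbad
  refine ⟨⟨N, lt_of_lt_of_le hlt hN, hbad'⟩, ?_⟩
  intro n₀ hn₀
  have hNn : N < n₀ := by
    by_contra hcon
    exact hbad' (hn₀.1 N (not_lt.mp hcon))
  have : (N : ℝ) < n₀ := by exact_mod_cast hNn
  linarith

end Pool.Agent.Results.MP_071fc1_co.SuperPoly
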